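import Pool.Agent.H150Z.Cher.PMain

set_option autoImplicit false

namespace Pool.Agent.Results.MP_b4b244_al.ANonPalindromic

open Pool.Agent.H150Z.Cher

/-- There are a finite complex reflection group `W` (namely `G(5,5,4)`) and an irreducible
`W`-module `E` (of dimension 12) such that no nonempty Zariski-open set of parameters `c` consists
of parameters for which the Poincare series of the simple module `L_c(E)` of the restricted rational
Cherednik algebra is palindromic. -/
theorem result : ∃ (V : Type) (_ : AddCommGroup V) (_ : Module ℂ V) (_ : FiniteDimensional ℂ V)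
    (W : Subgroup (V ≃ₗ[ℂ] V)) (E : Type) (_ : AddCommGroup E) (_ : Module ℂ E)
    (_ : FiniteDimensional ℂ E) (ρ : Representation ℂ W E),
    IsComplexReflGroup W ∧ ρ.IsIrreducible ∧
    ¬ Generically W (fun c => Palindromic (poincare W c ρ)) :=
  ⟨G.V, inferInstance, inferInstance, inferInstance, G.W, G.Lg 0, inferInstance, inferInstance,
    inferInstance, G.ρ0, G.isCRG, G.ρ0_irr, G.not_generic⟩

end Pool.Agent.Results.MP_b4b244_al.ANonPalindromic
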